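import Pool.Agent.N955.UB.Defs

/-!
# Local events of the Bernoulli measure
-/

set_option autoImplicit false

open MeasureTheory ProbabilityTheory

namespace Pool.Agent.N955.UB

instance (p : unitInterval) : IsProbabilityMeasure (bern p) := by
  unfold bern; infer_instance

/-- The event `E` depends only on the sites of `s`. -/
def DepOn (s : Finset (ℤ × ℤ)) (E : Set (ℤ × ℤ → Bool)) : Prop :=
  ∀ ω ω' : ℤ × ℤ → Bool, (∀ i ∈ s, ω i = ω' i) → ω ∈ E → ω' ∈ E

lemma DepOn.eq_preimage {s : Finset (ℤ × ℤ)} {E : Set (ℤ × ℤ → Bool)} (h : DepOn s E) :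
    E = s.restrict ⁻¹' (s.restrict '' E) := by
  ext ω
  constructor
  · intro hω
    exact ⟨ω, hω, rfl⟩
  · rintro ⟨ω', hω', he⟩
    refine h ω' ω (fun i hi => ?_) hω'
    exact congrFun he ⟨i, hi⟩

lemma DepOn.measurableSet {s : Finset (ℤ × ℤ)} {E : Set (ℤ × ℤ → Bool)} (h : DepOn s E) :
    MeasurableSet E := by
  rw [h.eq_preimage]
  exact (Finset.measurable_restrict s) (Set.toFinite _).measurableSet

lemma DepOn.mono {s t : Finset (ℤ × ℤ)} {E : Set (ℤ × ℤ → Bool)} (h : DepOn s E) (hst : s ⊆ t) :
    DepOn t E := fun ω ω' hh => h ω ω' (fun i hi => hh i (hst hi))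

lemma DepOn.inter {s t : Finset (ℤ × ℤ)} {E F : Set (ℤ × ℤ → Bool)} (hE : DepOn s E)
    (hF : DepOn t F) : DepOn (s ∪ t) (E ∩ F) := by
  rintro ω ω' hh ⟨h1, h2⟩
  exact ⟨hE ω ω' (fun i hi => hh i (Finset.mem_union_left _ hi)) h1,
    hF ω ω' (fun i hi => hh i (Finset.mem_union_right _ hi)) h2⟩

lemma DepOn.indep (p : unitInterval) {s t : Finset (ℤ × ℤ)} {E F : Set (ℤ × ℤ → Bool)}
    (hE : DepOn s E) (hF : DepOn t F) (hst : Disjoint s t) :
    bern p (E ∩ F) = bern p E * bern p F := by
  have h1 : iIndepFun (fun (i : ℤ × ℤ) (ω : ℤ × ℤ → Bool) => ω i) (bern p) := by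
    unfold bern
    exact iIndepFun_infinitePi (X := fun _ b => b) (fun _ => measurable_id)
  have h2 := h1.indepFun_finset s t hst (fun i => measurable_pi_apply i)
  rw [hE.eq_preimage, hF.eq_preimage]
  exact h2.measure_inter_preimage_eq_mul _ _ (Set.toFinite _).measurableSet
    (Set.toFinite _).measurableSet

/-- Independence of a finite family of events depending on disjoint sets of sites: upper
bound. -/
lemma prod_bound (p : unitInterval) {ι : Type*} [DecidableEq ι] (D : ι → Finset (ℤ × ℤ))
    (E : ι → Set (ℤ × ℤ → Bool)) (hE : ∀ i, DepOn (D i) (E i)) (δ : ENNReal)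
    (hδ : ∀ i, bern p (E i) ≤ δ) (S : Finset ι)
    (hS : ∀ i ∈ S, ∀ j ∈ S, i ≠ j → Disjoint (D i) (D j)) :
    bern p (⋂ i ∈ S, E i) ≤ δ ^ S.card := by
  classical
  have key : ∀ T : Finset ι, T ⊆ S → DepOn (T.biUnion D) (⋂ i ∈ T, E i) ∧
      bern p (⋂ i ∈ T, E i) ≤ δ ^ T.card := by
    intro T
    induction T using Finset.induction_on with
    | empty =>
      intro _
      refine ⟨fun ω ω' _ _ => by simp, ?_⟩
      simp
    | insert a T ha ih =>
      intro hT
      obtain ⟨h1, h2⟩ := ih (fun i hi => hT (Finset.mem_insert_of_mem hi))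
      have he : (⋂ i ∈ insert a T, E i) = E a ∩ ⋂ i ∈ T, E i := by
        rw [Finset.set_biInter_insert]
      have hd : Disjoint (D a) (T.biUnion D) := by
        rw [Finset.disjoint_biUnion_right]
        intro i hi
        exact hS a (hT (Finset.mem_insert_self _ _)) i (hT (Finset.mem_insert_of_mem hi))
          (fun h => ha (h ▸ hi))
      refine ⟨?_, ?_⟩
      · rw [he, Finset.biUnion_insert]
        exact (hE a).inter h1
      · rw [he, (hE a).indep p h1 hd, Finset.card_insert_of_notMem ha, pow_succ, mul_comm]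
        exact mul_le_mul' h2 (hδ a)
  exact (key S subset_rfl).2

/-- The probability of a local event is a continuous function of `p`. -/
lemma DepOn.continuous {s : Finset (ℤ × ℤ)} {E : Set (ℤ × ℤ → Bool)} (h : DepOn s E) :
    Continuous (fun p : unitInterval => (bern p).real E) := by
  classical
  have hform : ∀ p : unitInterval, (bern p).real E =
      ∑ f ∈ (Set.toFinite (s.restrict '' E)).toFinset,
        ∏ i : s, (if f i = true then (p : ℝ) else 1 - p) := by
    intro p
    have h1 : bern p E = Measure.pi (fun _ : s => bernoulliMeasure true false p)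
        (s.restrict '' E) := by
      conv_lhs => rw [h.eq_preimage]
      unfold bern
      rw [← Measure.map_apply (Finset.measurable_restrict s) (Set.toFinite _).measurableSet,
        Measure.infinitePi_map_restrict]
    rw [measureReal_def, h1]
    have h2 : (s.restrict '' E) = ⋃ f ∈ (Set.toFinite (s.restrict '' E)).toFinset,
        ({f} : Set (s → Bool)) := by
      ext g
      simp [eq_comm]
    conv_lhs => rw [h2]
    rw [measure_biUnion_finset]
    · rw [ENNReal.toReal_sum (fun f _ => measure_ne_top _ _)]
      refine Finset.sum_congr rfl (fun f _ => ?_)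
      rw [Measure.pi_singleton, ENNReal.toReal_prod]
      refine Finset.prod_congr rfl (fun i _ => ?_)
      have h3 := bernoulliMeasure_real_apply (x := true) (y := false) p
        (s := {f i}) (measurableSet_singleton (f i))
      rw [← measureReal_def, h3]
      cases hfi : f i <;> simp
    · intro a _ b _ hab
      simpa [Function.onFun] using hab
    · intro f _
      exact measurableSet_singleton f
  simp_rw [hform]
  refine continuous_finsetSum _ (fun f _ => ?_)
  refine continuous_finsetProd _ (fun i _ => ?_)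
  split_ifs
  · exact continuous_subtype_val
  · exact continuous_const.sub continuous_subtype_val

/-- Translation of configurations. -/
def shift (x : ℤ × ℤ) (ω : ℤ × ℤ → Bool) : ℤ × ℤ → Bool := fun i => ω (x + i)

lemma bern_shift (p : unitInterval) (x : ℤ × ℤ) {E : Set (ℤ × ℤ → Bool)} (hE : MeasurableSet E) :
    bern p (shift x ⁻¹' E) = bern p E := by
  have h := Measure.map_infinitePi_infinitePi_of_inj
    (P := fun _ : ℤ × ℤ => bernoulliMeasure true false p) (f := fun i => x + i)
    (add_right_injective x)
  have hm : Measurable (shift x) := measurable_pi_lambda _ (fun i => measurable_pi_apply _)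
  have h' : (bern p).map (shift x) = bern p := h
  rw [← Measure.map_apply hm hE, h']

end Pool.Agent.N955.UB
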