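import Pool.Agent.N955.UB.Det

/-!
# The block argument: deterministic part
-/

set_option autoImplicit false

open MeasureTheory ProbabilityTheory

namespace Pool.Agent.N955.UB

variable {U : Finset (Finset (ℤ × ℤ))}

/-- The thick ring of the block `z` of side `L`. -/
noncomputable def ring (L ρ : ℤ) (z : ℤ × ℤ) : Finset (ℤ × ℤ) :=
  (Finset.Icc (L * z.1, L * z.2) (L * z.1 + L + ρ - 1, L * z.2 + L + ρ - 1)).filter
    (fun x => x.1 < L * z.1 + ρ ∨ x.2 < L * z.2 + ρ ∨ L * z.1 + L ≤ x.1 ∨ L * z.2 + L ≤ x.2)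

lemma mem_ring {L ρ : ℤ} {z x : ℤ × ℤ} : x ∈ ring L ρ z ↔
    (L * z.1 ≤ x.1 ∧ x.1 ≤ L * z.1 + L + ρ - 1 ∧ L * z.2 ≤ x.2 ∧ x.2 ≤ L * z.2 + L + ρ - 1) ∧
    (x.1 < L * z.1 + ρ ∨ x.2 < L * z.2 + ρ ∨ L * z.1 + L ≤ x.1 ∨ L * z.2 + L ≤ x.2) := by
  unfold ring
  rw [Finset.mem_filter, Finset.mem_Icc, Prod.le_def, Prod.le_def]
  tauto

/-- The block containing a site. -/
def blk (L : ℤ) (x : ℤ × ℤ) : ℤ × ℤ := (x.1 / L, x.2 / L)

lemma blk_bounds {L : ℤ} (hL : 0 < L) (x : ℤ × ℤ) :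
    L * (blk L x).1 ≤ x.1 ∧ x.1 < L * (blk L x).1 + L ∧
    L * (blk L x).2 ≤ x.2 ∧ x.2 < L * (blk L x).2 + L := by
  have h1 := Int.mul_ediv_add_emod x.1 L
  have h2 := Int.mul_ediv_add_emod x.2 L
  have h3 := Int.emod_nonneg x.1 hL.ne'
  have h4 := Int.emod_nonneg x.2 hL.ne'
  have h5 := Int.emod_lt_of_pos x.1 hL
  have h6 := Int.emod_lt_of_pos x.2 hL
  unfold blk
  simp only
  omega

/-- Two sites at distance at most `ρ` in different blocks: one of them lies in the ring of the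
block of the first one. -/
lemma ring_sep {L ρ : ℤ} (hL : 0 < L) {x w : ℤ × ℤ} (hne : blk L x ≠ blk L w)
    (hd : -ρ ≤ w.1 - x.1 ∧ w.1 - x.1 ≤ ρ ∧ -ρ ≤ w.2 - x.2 ∧ w.2 - x.2 ≤ ρ) :
    x ∈ ring L ρ (blk L x) ∨ w ∈ ring L ρ (blk L x) := by
  by_contra hc
  push Not at hc
  obtain ⟨hc1, hc2⟩ := hc
  obtain ⟨h1, h2, h3, h4⟩ := blk_bounds hL x
  have hx : L * (blk L x).1 + ρ ≤ x.1 ∧ L * (blk L x).2 + ρ ≤ x.2 := by
    rw [mem_ring] at hc1
    push Not at hc1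
    by_contra hcc
    have := hc1
    omega
  have hw : L * (blk L x).1 ≤ w.1 ∧ w.1 < L * (blk L x).1 + L ∧
      L * (blk L x).2 ≤ w.2 ∧ w.2 < L * (blk L x).2 + L := by
    rw [mem_ring] at hc2
    push Not at hc2
    have := hc2
    omega
  apply hne
  obtain ⟨h5, h6, h7, h8⟩ := hw
  unfold blk
  have e1 : w.1 / L = (blk L x).1 := by
    apply le_antisymm
    · exact Int.lt_add_one_iff.1 (Int.ediv_lt_of_lt_mul hL (by linarith [mul_comm L (blk L x).1]))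
    · exact Int.le_ediv_of_mul_le hL (by linarith [mul_comm L (blk L x).1])
  have e2 : w.2 / L = (blk L x).2 := by
    apply le_antisymm
    · exact Int.lt_add_one_iff.1 (Int.ediv_lt_of_lt_mul hL (by linarith [mul_comm L (blk L x).2]))
    · exact Int.le_ediv_of_mul_le hL (by linarith [mul_comm L (blk L x).2])
  rw [e1, e2]
  rfl

/-- The block `z` is bad. -/
def badBlock (U : Finset (Finset (ℤ × ℤ))) (n ρ L : ℤ) (z : ℤ × ℤ) : Set (ℤ × ℤ → Bool) :=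
  ⋃ x ∈ ring L ρ z, bad U n x

/-- The graph of the adjacent bad blocks. -/
def badGraph (U : Finset (Finset (ℤ × ℤ))) (n ρ L : ℤ) (ω : ℤ × ℤ → Bool) :
    SimpleGraph (ℤ × ℤ) where
  Adj z w := z ≠ w ∧ (-1 ≤ w.1 - z.1 ∧ w.1 - z.1 ≤ 1 ∧ -1 ≤ w.2 - z.2 ∧ w.2 - z.2 ≤ 1) ∧
    ω ∈ badBlock U n ρ L z ∧ ω ∈ badBlock U n ρ L w
  symm := ⟨fun z w h => ⟨h.1.symm, by omega, h.2.2.2, h.2.2.1⟩⟩
  loopless := ⟨fun z h => h.1 rfl⟩

lemma blk_near {L ρ : ℤ} (hρ : 0 ≤ ρ) (hL : ρ ≤ L) (hL0 : 0 < L) {x w : ℤ × ℤ}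
    (hd : -ρ ≤ w.1 - x.1 ∧ w.1 - x.1 ≤ ρ ∧ -ρ ≤ w.2 - x.2 ∧ w.2 - x.2 ≤ ρ) :
    -1 ≤ (blk L w).1 - (blk L x).1 ∧ (blk L w).1 - (blk L x).1 ≤ 1 ∧
    -1 ≤ (blk L w).2 - (blk L x).2 ∧ (blk L w).2 - (blk L x).2 ≤ 1 := by
  obtain ⟨h1, h2, h3, h4⟩ := blk_bounds hL0 x
  obtain ⟨h5, h6, h7, h8⟩ := blk_bounds hL0 w
  have key : ∀ a b : ℤ, L * a < L * b + 2 * L → a - b ≤ 1 := by
    intro a b hab
    by_contra hcon
    push Not at hcon
    have h9 : b + 2 ≤ a := by omega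
    have h10 := mul_le_mul_of_nonneg_left h9 hL0.le
    linarith
  have k1 := key (blk L w).1 (blk L x).1 (by linarith)
  have k2 := key (blk L x).1 (blk L w).1 (by linarith)
  have k3 := key (blk L w).2 (blk L x).2 (by linarith)
  have k4 := key (blk L x).2 (blk L w).2 (by linarith)
  omega

/-- If there is no finite nonempty blocked set and all clusters of bad blocks are finite, then the
initial set percolates. -/
lemma percolates_of_finite {n ρ L : ℤ} (hρ : 0 ≤ ρ) (hL : ρ ≤ L) (hL0 : 0 < L)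
    (hU : Range U ρ) (hfin : ∀ F : Set (ℤ × ℤ), F.Finite → Blocked U F → F = ∅)
    (ω : ℤ × ℤ → Bool)
    (hcl : ∀ z, {w | (badGraph U n ρ L ω).Reachable z w}.Finite) : ω ∈ perc U := by
  change clos U (initial ω) = Set.univ
  rw [Set.eq_univ_iff_forall]
  intro x
  by_contra hx
  set H : Set (ℤ × ℤ) := (clos U (initial ω))ᶜ with hH
  have hHb : Blocked U H := blocked_compl _
  have hgood : ∀ z, ω ∉ badBlock U n ρ L z → ∀ y ∈ ring L ρ z, y ∉ H := by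
    intro z hz y hy hyH
    unfold badBlock at hz
    simp only [Set.mem_iUnion, not_exists] at hz
    have h1 := hz y hy
    unfold bad at h1
    rw [Set.mem_ofPred_eq, not_not] at h1
    exact hyH (clos_mono Set.inter_subset_left h1)
  let F : Set (ℤ × ℤ) := {y | y ∈ H ∧ (badGraph U n ρ L ω).Reachable (blk L x) (blk L y)}
  have hxF : x ∈ F := ⟨hx, SimpleGraph.Reachable.refl _⟩
  have hFfin : F.Finite := by
    have h1 : F ⊆ ⋃ z ∈ {w | (badGraph U n ρ L ω).Reachable (blk L x) w},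
        (Finset.Icc (L * z.1, L * z.2) (L * z.1 + L, L * z.2 + L) : Set (ℤ × ℤ)) := by
      intro y hy
      simp only [Set.mem_iUnion]
      refine ⟨blk L y, hy.2, ?_⟩
      obtain ⟨h1, h2, h3, h4⟩ := blk_bounds hL0 y
      rw [Finset.mem_coe, Finset.mem_Icc, Prod.le_def, Prod.le_def]
      exact ⟨⟨h1, h3⟩, ⟨h2.le, h4.le⟩⟩
    refine Set.Finite.subset (Set.Finite.biUnion (hcl _) (fun z _ => ?_)) h1
    exact Finset.finite_toSet _
  have hFb : Blocked U F := by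
    rintro y ⟨hyH, hyr⟩ X hX
    obtain ⟨w, hw, hwH⟩ := hHb y hyH X hX
    refine ⟨w, hw, hwH, ?_⟩
    by_cases he : blk L y = blk L (y + w)
    · rw [← he]; exact hyr
    · obtain ⟨h1, h2, h3, h4⟩ := hU X hX w hw
      have hd : -ρ ≤ (y + w).1 - y.1 ∧ (y + w).1 - y.1 ≤ ρ ∧ -ρ ≤ (y + w).2 - y.2 ∧
          (y + w).2 - y.2 ≤ ρ := by
        simp only [Prod.fst_add, Prod.snd_add]
        omega
      have hd' : -ρ ≤ y.1 - (y + w).1 ∧ y.1 - (y + w).1 ≤ ρ ∧ -ρ ≤ y.2 - (y + w).2 ∧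
          y.2 - (y + w).2 ≤ ρ := by omega
      have hb1 : ω ∈ badBlock U n ρ L (blk L y) := by
        by_contra hc
        rcases ring_sep hL0 he hd with h | h
        · exact hgood _ hc _ h hyH
        · exact hgood _ hc _ h hwH
      have hb2 : ω ∈ badBlock U n ρ L (blk L (y + w)) := by
        by_contra hc
        rcases ring_sep hL0 (Ne.symm he) hd' with h | h
        · exact hgood _ hc _ h hwH
        · exact hgood _ hc _ h hyH
      have hadj : (badGraph U n ρ L ω).Adj (blk L y) (blk L (y + w)) :=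
        ⟨he, blk_near hρ hL hL0 hd, hb1, hb2⟩
      exact hyr.trans hadj.reachable
  have := hfin F hFfin hFb
  rw [this] at hxF
  exact hxF

/-- The sites on which the state of the block `z` depends. -/
noncomputable def dom (L : ℤ) (z : ℤ × ℤ) : Finset (ℤ × ℤ) :=
  Finset.Icc (L * z.1 - L, L * z.2 - L) (L * z.1 + 2 * L - 1, L * z.2 + 2 * L - 1)

lemma badBlock_dep {n ρ : ℤ} (hn : 0 ≤ n) (hρ : 0 ≤ ρ) (z : ℤ × ℤ) :
    DepOn (dom (n + ρ) z) (badBlock U n ρ (n + ρ) z) := by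
  intro ω ω' h hω
  unfold badBlock at hω ⊢
  simp only [Set.mem_iUnion] at hω ⊢
  obtain ⟨x, hx, hω⟩ := hω
  refine ⟨x, hx, bad_dep n x ω ω' (fun i hi => h i ?_) hω⟩
  rw [mem_ring] at hx
  rw [mem_box] at hi
  unfold dom
  rw [Finset.mem_Icc, Prod.le_def, Prod.le_def]
  simp only
  omega

lemma dom_disjoint {L : ℤ} (hL : 0 < L) {z w : ℤ × ℤ}
    (h : 3 ≤ |z.1 - w.1| ∨ 3 ≤ |z.2 - w.2|) : Disjoint (dom L z) (dom L w) := by
  rw [Finset.disjoint_left]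
  intro x hx hx'
  unfold dom at hx hx'
  rw [Finset.mem_Icc, Prod.le_def, Prod.le_def] at hx hx'
  simp only at hx hx'
  obtain ⟨⟨a1, a2⟩, ⟨a3, a4⟩⟩ := hx
  obtain ⟨⟨b1, b2⟩, ⟨b3, b4⟩⟩ := hx'
  have key : ∀ a b c : ℤ, L * a - L ≤ c → c ≤ L * b + 2 * L - 1 → a - b < 3 := by
    intro a b c h1 h2
    by_contra hcon
    push Not at hcon
    have h9 : b + 3 ≤ a := by omega
    have h10 := mul_le_mul_of_nonneg_left h9 hL.le
    linarith
  rcases h with h | h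
  · rcases le_abs.1 h with h | h
    · exact absurd (key z.1 w.1 x.1 a1 b3) (by omega)
    · exact absurd (key w.1 z.1 x.1 b1 a3) (by omega)
  · rcases le_abs.1 h with h | h
    · exact absurd (key z.2 w.2 x.2 a2 b4) (by omega)
    · exact absurd (key w.2 z.2 x.2 b2 a4) (by omega)

end Pool.Agent.N955.UB
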