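import Mathlib

/-!
# Two-dimensional bootstrap percolation with an arbitrary update family: definitions
-/

set_option autoImplicit false

open MeasureTheory ProbabilityTheory

namespace Pool.Agent.N955.UB

/-- An update family: a finite nonempty collection of finite subsets of the square lattice
without the origin. -/
def IsUpdateFamily (U : Finset (Finset (ℤ × ℤ))) : Prop :=
  U.Nonempty ∧ ∀ X ∈ U, (0 : ℤ × ℤ) ∉ X

/-- The infected set `A_t` at time `t`, started from `A`. -/
def evol (U : Finset (Finset (ℤ × ℤ))) (A : Set (ℤ × ℤ)) : ℕ → Set (ℤ × ℤ)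
  | 0 => A
  | t + 1 => evol U A t ∪ {x | ∃ X ∈ U, ∀ y ∈ X, x + y ∈ evol U A t}

/-- The closure `[A]`: the set of all sites which are eventually infected. -/
def clos (U : Finset (Finset (ℤ × ℤ))) (A : Set (ℤ × ℤ)) : Set (ℤ × ℤ) :=
  ⋃ t : ℕ, evol U A t

/-- The discrete half-plane of the sites `x` with `⟨x, u⟩ < 0`, where `u = (cos φ, sin φ)`. -/
def halfPlane (φ : ℝ) : Set (ℤ × ℤ) :=
  {x | (x.1 : ℝ) * Real.cos φ + (x.2 : ℝ) * Real.sin φ < 0}

/-- The direction `(cos φ, sin φ)` is stable. -/
def IsStable (U : Finset (Finset (ℤ × ℤ))) (φ : ℝ) : Prop :=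
  clos U (halfPlane φ) = halfPlane φ

/-- The family is subcritical: the stable directions of every open semicircle have positive
arc length. -/
def IsSubcritical (U : Finset (Finset (ℤ × ℤ))) : Prop :=
  ∀ α : ℝ, 0 < volume {φ : ℝ | φ ∈ Set.Ioo α (α + Real.pi) ∧ IsStable U φ}

/-- The product measure under which every site is independently `true` (initially infected) with
probability `p`. -/
noncomputable def bern (p : unitInterval) : Measure (ℤ × ℤ → Bool) :=
  Measure.infinitePi (fun _ : ℤ × ℤ => bernoulliMeasure true false p)

/-- The initially infected set of the configuration `ω`. -/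
def initial (ω : ℤ × ℤ → Bool) : Set (ℤ × ℤ) := {x | ω x = true}

/-- The event that the initially infected set percolates. -/
def perc (U : Finset (Finset (ℤ × ℤ))) : Set (ℤ × ℤ → Bool) :=
  {ω | clos U (initial ω) = Set.univ}

/-- The critical probability: the infimum of the `p` such that percolation occurs almost
surely. -/
noncomputable def pc (U : Finset (Finset (ℤ × ℤ))) : unitInterval :=
  sInf {p : unitInterval | bern p (perc U) = 1}

/-- The occupation time of the origin (infinite if the origin is never infected). -/
noncomputable def occTime (U : Finset (Finset (ℤ × ℤ))) (ω : ℤ × ℤ → Bool) : ENNReal :=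
  ⨅ (t : ℕ) (_ : (0 : ℤ × ℤ) ∈ evol U (initial ω) t), (t : ENNReal)

end Pool.Agent.N955.UB
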