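import Pool.Agent.N955.UB.Basic

/-!
# Deterministic facts on update families
-/

set_option autoImplicit false

open MeasureTheory ProbabilityTheory

namespace Pool.Agent.N955.UB

variable {U : Finset (Finset (ℤ × ℤ))}

lemma evol_succ (A : Set (ℤ × ℤ)) (t : ℕ) :
    evol U A (t + 1) = evol U A t ∪ {x | ∃ X ∈ U, ∀ y ∈ X, x + y ∈ evol U A t} := rfl

lemma evol_zero (A : Set (ℤ × ℤ)) : evol U A 0 = A := rfl

lemma evol_le (A : Set (ℤ × ℤ)) {s t : ℕ} (h : s ≤ t) : evol U A s ⊆ evol U A t := by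
  induction t, h using Nat.le_induction with
  | base => exact subset_rfl
  | succ n _ ih => exact ih.trans Set.subset_union_left

lemma evol_mono {A B : Set (ℤ × ℤ)} (h : A ⊆ B) (t : ℕ) : evol U A t ⊆ evol U B t := by
  induction t with
  | zero => exact h
  | succ n ih =>
    rintro x (hx | ⟨X, hX, hx⟩)
    · exact Or.inl (ih hx)
    · exact Or.inr ⟨X, hX, fun y hy => ih (hx y hy)⟩

lemma clos_mono {A B : Set (ℤ × ℤ)} (h : A ⊆ B) : clos U A ⊆ clos U B :=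
  Set.iUnion_mono (fun t => evol_mono h t)

lemma evol_subset_clos (A : Set (ℤ × ℤ)) (t : ℕ) : evol U A t ⊆ clos U A :=
  Set.subset_iUnion (fun t => evol U A t) t

lemma clos_closed {A : Set (ℤ × ℤ)} {x : ℤ × ℤ} {X : Finset (ℤ × ℤ)} (hX : X ∈ U)
    (h : ∀ y ∈ X, x + y ∈ clos U A) : x ∈ clos U A := by
  classical
  have h1 : ∀ y : ℤ × ℤ, ∃ t : ℕ, y ∈ X → x + y ∈ evol U A t := by
    intro y
    by_cases hy : y ∈ X
    · obtain ⟨t, ht⟩ := Set.mem_iUnion.1 (h y hy)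
      exact ⟨t, fun _ => ht⟩
    · exact ⟨0, fun h => absurd h hy⟩
  choose t ht using h1
  refine evol_subset_clos A (X.sup t + 1) (Or.inr ⟨X, hX, fun y hy => ?_⟩)
  exact evol_le A (Finset.le_sup hy) (ht y hy)

/-- A set is blocked if, being healthy, it stays healthy for ever. -/
def Blocked (U : Finset (Finset (ℤ × ℤ))) (H : Set (ℤ × ℤ)) : Prop :=
  ∀ x ∈ H, ∀ X ∈ U, ∃ y ∈ X, x + y ∈ H

lemma blocked_compl (A : Set (ℤ × ℤ)) : Blocked U (clos U A)ᶜ := by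
  intro x hx X hX
  by_contra hc
  push Not at hc
  exact hx (clos_closed hX (fun y hy => by
    have := hc y hy
    rwa [Set.mem_compl_iff, not_not] at this))

lemma blocked_evol {A H : Set (ℤ × ℤ)} (hH : Blocked U H) (hA : ∀ x ∈ H, x ∉ A) (t : ℕ) :
    ∀ x ∈ H, x ∉ evol U A t := by
  induction t with
  | zero => exact hA
  | succ n ih =>
    rintro x hx (h | ⟨X, hX, h⟩)
    · exact ih x hx h
    · obtain ⟨y, hy, hy'⟩ := hH x hx X hX
      exact ih _ hy' (h y hy)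

/-- The box of radius `n` around `x`. -/
noncomputable def box (x : ℤ × ℤ) (n : ℤ) : Finset (ℤ × ℤ) := Finset.Icc (x - (n, n)) (x + (n, n))

lemma mem_box {x z : ℤ × ℤ} {n : ℤ} : z ∈ box x n ↔
    x.1 - n ≤ z.1 ∧ z.1 ≤ x.1 + n ∧ x.2 - n ≤ z.2 ∧ z.2 ≤ x.2 + n := by
  unfold box
  rw [Finset.mem_Icc, Prod.le_def, Prod.le_def]
  simp only [Prod.fst_sub, Prod.snd_sub, Prod.fst_add, Prod.snd_add]
  tauto

/-- All sets of the family have range at most `ρ`. -/
def Range (U : Finset (Finset (ℤ × ℤ))) (ρ : ℤ) : Prop :=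
  ∀ X ∈ U, ∀ y ∈ X, -ρ ≤ y.1 ∧ y.1 ≤ ρ ∧ -ρ ≤ y.2 ∧ y.2 ≤ ρ

lemma evol_local {ρ : ℤ} (hρ : 0 ≤ ρ) (hU : Range U ρ) (A : Set (ℤ × ℤ)) (m : ℕ) :
    ∀ x, x ∈ evol U A m → x ∈ evol U (A ∩ box x (ρ * m)) m := by
  induction m with
  | zero =>
    intro x hx
    refine ⟨hx, ?_⟩
    rw [Finset.mem_coe, mem_box]
    simp
  | succ n ih =>
    have hn : (0 : ℤ) ≤ ρ * n := mul_nonneg hρ (by positivity)
    have hcast : ρ * ((n + 1 : ℕ) : ℤ) = ρ * n + ρ := by push_cast; ring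
    rintro x (hx | ⟨X, hX, hx⟩)
    · refine Or.inl (evol_mono ?_ n (ih x hx))
      rintro z ⟨hz, hz'⟩
      refine ⟨hz, ?_⟩
      rw [Finset.mem_coe, mem_box] at hz' ⊢
      rw [hcast]
      omega
    · refine Or.inr ⟨X, hX, fun y hy => evol_mono ?_ n (ih _ (hx y hy))⟩
      rintro z ⟨hz, hz'⟩
      refine ⟨hz, ?_⟩
      obtain ⟨h1, h2, h3, h4⟩ := hU X hX y hy
      rw [Finset.mem_coe, mem_box] at hz' ⊢
      simp only [Prod.fst_add, Prod.snd_add] at hz'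
      rw [hcast]
      omega

lemma evol_shift (A : Set (ℤ × ℤ)) (x : ℤ × ℤ) (t : ℕ) :
    ∀ y, x + y ∈ evol U A t ↔ y ∈ evol U {z | x + z ∈ A} t := by
  induction t with
  | zero => intro y; rfl
  | succ n ih =>
    intro y
    rw [evol_succ, evol_succ, Set.mem_union, Set.mem_union, ih y]
    refine or_congr Iff.rfl ?_
    constructor
    · rintro ⟨X, hX, h⟩
      exact ⟨X, hX, fun w hw => (ih _).1 (by rw [← add_assoc]; exact h w hw)⟩
    · rintro ⟨X, hX, h⟩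
      exact ⟨X, hX, fun w hw => by rw [add_assoc]; exact (ih _).2 (h w hw)⟩

lemma clos_shift (A : Set (ℤ × ℤ)) (x y : ℤ × ℤ) :
    x + y ∈ clos U A ↔ y ∈ clos U {z | x + z ∈ A} := by
  unfold clos
  rw [Set.mem_iUnion, Set.mem_iUnion]
  exact exists_congr (fun t => evol_shift A x t y)

/-- The event that the site `x` is not infected by the sites within distance `n`. -/
def bad (U : Finset (Finset (ℤ × ℤ))) (n : ℤ) (x : ℤ × ℤ) : Set (ℤ × ℤ → Bool) :=
  {ω | x ∉ clos U (initial ω ∩ box x n)}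

lemma initial_inter_congr {ω ω' : ℤ × ℤ → Bool} {s : Finset (ℤ × ℤ)}
    (h : ∀ i ∈ s, ω i = ω' i) : initial ω ∩ s = initial ω' ∩ s := by
  ext i
  simp only [initial, Set.mem_inter_iff, Set.mem_ofPred_eq, Finset.mem_coe]
  constructor
  · rintro ⟨h1, h2⟩; exact ⟨by rw [← h i h2]; exact h1, h2⟩
  · rintro ⟨h1, h2⟩; exact ⟨by rw [h i h2]; exact h1, h2⟩

lemma bad_dep (n : ℤ) (x : ℤ × ℤ) : DepOn (box x n) (bad U n x) := by
  intro ω ω' h hω
  unfold bad at hω ⊢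
  rw [Set.mem_ofPred_eq] at hω ⊢
  rwa [← initial_inter_congr h]

lemma bad_shift (n : ℤ) (x : ℤ × ℤ) : bad U n x = shift x ⁻¹' (bad U n 0) := by
  ext ω
  unfold bad
  rw [Set.mem_ofPred_eq, Set.mem_preimage, Set.mem_ofPred_eq, not_iff_not]
  have h := clos_shift (U := U) (initial ω ∩ box x n) x 0
  rw [add_zero] at h
  rw [h]
  have he : {z | x + z ∈ initial ω ∩ (box x n : Set (ℤ × ℤ))} =
      initial (shift x ω) ∩ (box 0 n : Set (ℤ × ℤ)) := by
    ext z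
    simp only [initial, shift, Set.mem_inter_iff, Set.mem_ofPred_eq, Finset.mem_coe, mem_box,
      Prod.fst_add, Prod.snd_add, Prod.fst_zero, Prod.snd_zero]
    refine and_congr Iff.rfl ?_
    constructor <;> intro h <;> omega
  rw [he]

lemma bern_bad (p : unitInterval) (n : ℤ) (x : ℤ × ℤ) :
    bern p (bad U n x) = bern p (bad U n 0) := by
  rw [bad_shift n x, bern_shift p x (bad_dep n 0).measurableSet]

end Pool.Agent.N955.UB
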