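import Pool.Agent.N955.UB.Prob

/-!
# The expected occupation time at the critical point
-/

set_option autoImplicit false

open MeasureTheory ProbabilityTheory

namespace Pool.Agent.N955.UB

variable {U : Finset (Finset (ℤ × ℤ))}

/-- The constant of the finite-size criterion. -/
noncomputable def c0 : ℝ := 1 / (2 * 9 ^ 9)

lemma c0_pos : 0 < c0 := by unfold c0; norm_num

/-- The finite-size criterion. -/
lemma criterion (p : unitInterval) (ρ n : ℕ) (hn : 1 ≤ n) (hU : Range U ρ)
    (hfin : ∀ F : Set (ℤ × ℤ), F.Finite → Blocked U F → F = ∅)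
    (h : (4 * ρ * (n + 2 * ρ) : ℝ) * (bern p).real (bad U n 0) ≤ c0) :
    bern p (perc U) = 1 := by
  have hd : ∀ z, bern p (badBlock U n ρ ((n : ℤ) + ρ) z) ≤ ENNReal.ofReal c0 := by
    intro z
    have h1 := bern_badBlock (U := U) p n (n + ρ) ρ z
    push_cast at h1
    refine h1.trans ?_
    rw [← ofReal_measureReal (μ := bern p) (s := bad U n 0)]
    have h2 : (4 * (ρ : ENNReal) * ((n : ENNReal) + ρ + ρ)) =
        ENNReal.ofReal (4 * ρ * (n + 2 * ρ) : ℝ) := by
      have h3 : (4 * (ρ : ℝ) * (n + 2 * ρ)) = ((4 * ρ * (n + ρ + ρ) : ℕ) : ℝ) := by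
        push_cast; ring
      rw [h3, ENNReal.ofReal_natCast]
      push_cast
      rfl
    rw [h2, ← ENNReal.ofReal_mul (by positivity)]
    exact ENNReal.ofReal_le_ofReal h
  have hd' : 9 ^ 9 * ENNReal.ofReal c0 ≤ 1 / 2 := by
    unfold c0
    have h3 : (9 ^ 9 : ENNReal) = ENNReal.ofReal (9 ^ 9) := by
      rw [ENNReal.ofReal_pow (by norm_num)]
      norm_num
    have h4 : (1 / 2 : ENNReal) = ENNReal.ofReal (1 / 2) := by
      rw [ENNReal.ofReal_div_of_pos (by norm_num)]
      simp
    rw [h3, h4, ← ENNReal.ofReal_mul (by norm_num)]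
    exact ENNReal.ofReal_le_ofReal (by norm_num)
  have hae : ∀ᵐ ω ∂(bern p), ∀ z, {w | (badGraph U n ρ ((n : ℤ) + ρ) ω).Reachable z w}.Finite := by
    rw [ae_all_iff]
    intro z
    rw [ae_iff]
    exact cluster_finite p n ρ (by omega) _ hd hd' z
  have hc : bern p (perc U)ᶜ = 0 := by
    have h5 : ∀ᵐ ω ∂(bern p), ω ∈ perc U := by
      filter_upwards [hae] with ω hω
      exact percolates_of_finite (by positivity) (by omega) (by omega) hU hfin ω hω
    exact h5
  have h6 : (1 : ENNReal) ≤ bern p (perc U) + bern p (perc U)ᶜ := by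
    rw [← measure_univ (μ := bern p), ← Set.union_compl_self (perc U)]
    exact measure_union_le _ _
  rw [hc, add_zero] at h6
  exact le_antisymm prob_le_one h6

/-- At a positive critical point the local events are not too unlikely. -/
lemma lower_at_pc (ρ n : ℕ) (hn : 1 ≤ n) (hU : Range U ρ)
    (hfin : ∀ F : Set (ℤ × ℤ), F.Finite → Blocked U F → F = ∅) (hpc : 0 < pc U) :
    c0 ≤ (4 * ρ * (n + 2 * ρ) : ℝ) * (bern (pc U)).real (bad U n 0) := by
  by_contra hc
  push Not at hc
  have hcont : Continuous (fun p : unitInterval =>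
      (4 * ρ * (n + 2 * ρ) : ℝ) * (bern p).real (bad U n 0)) :=
    continuous_const.mul (bad_dep (U := U) n 0).continuous
  have hnhds : {p : unitInterval | (4 * ρ * (n + 2 * ρ) : ℝ) * (bern p).real (bad U n 0) <
      c0} ∈ nhds (pc U) :=
    (isOpen_lt hcont continuous_const).mem_nhds hc
  obtain ⟨l, hl, hsub⟩ := exists_Ioc_subset_of_mem_nhds hnhds ⟨0, hpc⟩
  obtain ⟨m, hlm, hm⟩ := exists_between hl
  have h1 : bern m (perc U) = 1 :=
    criterion m ρ n hn hU hfin (le_of_lt (hsub ⟨hlm, hm.le⟩))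
  exact absurd (sInf_le (show m ∈ {p : unitInterval | bern p (perc U) = 1} from h1))
    (not_le.2 hm)

lemma evol_dep {ρ : ℕ} (hU : Range U ρ) (m : ℕ) :
    DepOn (box 0 (ρ * m)) {ω | (0 : ℤ × ℤ) ∉ evol U (initial ω) m} := by
  intro ω ω' h hω
  rw [Set.mem_ofPred_eq] at hω ⊢
  intro hc
  apply hω
  have h1 := evol_local (by positivity) hU (initial ω') m 0 hc
  rw [← initial_inter_congr h] at h1
  exact evol_mono Set.inter_subset_left m h1

lemma bad_subset {ρ : ℕ} (hU : Range U ρ) (m : ℕ) :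
    bad U (ρ * m) 0 ⊆ {ω | (0 : ℤ × ℤ) ∉ evol U (initial ω) m} := by
  intro ω hω hc
  exact hω (evol_subset_clos _ m (evol_local (by positivity) hU (initial ω) m 0 hc))

lemma tsum_le_occTime (ω : ℤ × ℤ → Bool) :
    ∑' m : ℕ, Set.indicator {ω | (0 : ℤ × ℤ) ∉ evol U (initial ω) m} (fun _ => (1 : ENNReal)) ω ≤
      occTime U ω := by
  unfold occTime
  refine le_iInf₂ (fun t ht => ?_)
  rw [tsum_eq_sum (s := Finset.range t)]
  · have h1 : ∀ m ∈ Finset.range t, Set.indicator {ω | (0 : ℤ × ℤ) ∉ evol U (initial ω) m}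
        (fun _ => (1 : ENNReal)) ω ≤ 1 := by
      intro m _
      exact Set.indicator_le_self' (fun _ _ => zero_le_one) ω
    refine (Finset.sum_le_sum h1).trans ?_
    simp
  · intro m hm
    rw [Finset.mem_range, not_lt] at hm
    rw [Set.indicator_of_notMem]
    simp only [Set.mem_ofPred_eq, not_not]
    exact evol_le _ hm ht

/-- At a critical point in `(0,1)` the expected occupation time is infinite. -/
lemma expected_top {ρ : ℕ} (hρ : 1 ≤ ρ) (hU : Range U ρ)
    (hfin : ∀ F : Set (ℤ × ℤ), F.Finite → Blocked U F → F = ∅) (hpc : 0 < pc U) :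
    ∫⁻ ω, occTime U ω ∂(bern (pc U)) = ⊤ := by
  have hle : ∑' m : ℕ, bern (pc U) {ω | (0 : ℤ × ℤ) ∉ evol U (initial ω) m} ≤
      ∫⁻ ω, occTime U ω ∂(bern (pc U)) := by
    refine le_trans (le_of_eq ?_) (lintegral_mono (fun ω => tsum_le_occTime ω))
    rw [lintegral_tsum]
    · refine tsum_congr (fun m => ?_)
      rw [lintegral_indicator (evol_dep hU m).measurableSet]
      simp
    · intro m
      exact (measurable_const.indicator (evol_dep hU m).measurableSet).aemeasurable
  rw [eq_top_iff]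
  refine le_trans ?_ hle
  rw [top_le_iff]
  by_contra hne
  have hs := ENNReal.summable_toReal hne
  have hlow : ∀ m : ℕ, (c0 / (4 * ρ * ρ) : ℝ) * (1 / ((m + 3 : ℕ) : ℝ)) ≤
      (bern (pc U) {ω | (0 : ℤ × ℤ) ∉ evol U (initial ω) (m + 1)}).toReal := by
    intro m
    have h1 := lower_at_pc (U := U) ρ (ρ * (m + 1)) (by nlinarith) hU hfin hpc
    have h2 : (bern (pc U)).real (bad U ((ρ * (m + 1) : ℕ) : ℤ) 0) ≤
        (bern (pc U) {ω | (0 : ℤ × ℤ) ∉ evol U (initial ω) (m + 1)}).toReal := by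
      rw [measureReal_def]
      refine ENNReal.toReal_mono (measure_ne_top _ _) (measure_mono ?_)
      have := bad_subset hU (m + 1)
      push_cast at this ⊢
      exact this
    refine le_trans ?_ h2
    have hρ' : (1 : ℝ) ≤ ρ := by exact_mod_cast hρ
    have hρ0 : (0 : ℝ) < ρ := by linarith
    have h3 : (4 * (ρ : ℝ) * (((ρ * (m + 1) : ℕ) : ℝ) + 2 * ρ)) = (4 * ρ * ρ) * (m + 3 : ℕ) := by
      push_cast; ring
    rw [h3] at h1
    have hpos : (0 : ℝ) < (4 * ρ * ρ) * (m + 3 : ℕ) := by positivity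
    rw [div_mul_div_comm, mul_one, div_le_iff₀ hpos]
    linarith [h1, mul_comm ((4 * (ρ : ℝ) * ρ) * (m + 3 : ℕ))
      ((bern (pc U)).real (bad U ((ρ * (m + 1) : ℕ) : ℤ) 0))]
  have hs' : Summable (fun m : ℕ =>
      (bern (pc U) {ω | (0 : ℤ × ℤ) ∉ evol U (initial ω) (m + 1)}).toReal) :=
    (summable_nat_add_iff 1).2 hs
  have hs2 : Summable (fun m : ℕ =>
      (c0 / (4 * ρ * ρ) : ℝ) * (1 / ((m + 3 : ℕ) : ℝ))) :=
    Summable.of_nonneg_of_le (fun m => by have := c0_pos; positivity) hlow hs'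
  have hρ' : (0 : ℝ) < ρ := by exact_mod_cast hρ
  have hs3 : Summable (fun m : ℕ => (1 / ((m + 3 : ℕ) : ℝ))) := by
    have := c0_pos
    rwa [summable_mul_left_iff (by positivity)] at hs2
  exact Real.not_summable_one_div_natCast ((summable_nat_add_iff 3).1 hs3)

lemma bern_one : bern 1 = Measure.dirac (fun _ => true) := by
  unfold bern
  rw [← Measure.infinitePi_dirac]
  congr 1
  funext _
  exact bernoulliMeasure_one true false

lemma bern_zero : bern 0 = Measure.dirac (fun _ => false) := by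
  unfold bern
  rw [← Measure.infinitePi_dirac]
  congr 1
  funext _
  exact bernoulliMeasure_zero true false

lemma expected_one : ∫⁻ ω, occTime U ω ∂(bern 1) = 0 := by
  rw [bern_one, lintegral_dirac]
  unfold occTime
  refine le_antisymm ?_ bot_le
  refine (iInf₂_le 0 ?_).trans (by simp)
  rw [evol_zero]
  rfl

lemma empty_notMem (h : IsSubcritical U) : ∅ ∉ U := by
  intro he
  have h1 := h 0
  have h2 : {φ : ℝ | φ ∈ Set.Ioo 0 (0 + Real.pi) ∧ IsStable U φ}.Nonempty := by
    rw [Set.nonempty_iff_ne_empty]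
    intro h3
    rw [h3, measure_empty] at h1
    exact lt_irrefl _ h1
  obtain ⟨φ, -, hφ⟩ := h2
  have h4 : (0 : ℤ × ℤ) ∈ clos U (halfPlane φ) := by
    refine evol_subset_clos _ 1 (Or.inr ⟨∅, he, ?_⟩)
    intro y hy
    exact absurd hy (Finset.notMem_empty y)
  rw [hφ] at h4
  simp [halfPlane] at h4

lemma evol_empty (h : ∅ ∉ U) (t : ℕ) : evol U ∅ t = ∅ := by
  induction t with
  | zero => rfl
  | succ n ih =>
    rw [evol_succ, ih, Set.empty_union, Set.eq_empty_iff_forall_notMem]
    rintro x ⟨X, hX, hx⟩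
    have hne : X.Nonempty := by
      rw [Finset.nonempty_iff_ne_empty]
      rintro rfl
      exact h hX
    obtain ⟨y, hy⟩ := hne
    exact hx y hy

lemma pc_pos (h : ∅ ∉ U) (hp : bern (pc U) (perc U) = 1) : 0 < pc U := by
  rcases (bot_le : (0 : unitInterval) ≤ pc U).lt_or_eq with h1 | h1
  · exact h1
  · exfalso
    have h1' : pc U = 0 := h1.symm
    rw [h1', bern_zero, Measure.dirac_apply] at hp
    have h2 : (fun _ => false : ℤ × ℤ → Bool) ∈ perc U := by
      by_contra hc
      rw [Set.indicator_of_notMem hc] at hp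
      exact zero_ne_one hp
    have h3 : clos U (initial (fun _ => false)) = Set.univ := h2
    have h4 : initial (fun _ => false) = ∅ := by
      ext x
      simp [initial]
    have h5 : (0 : ℤ × ℤ) ∈ clos U ∅ := by
      rw [← h4, h3]
      exact Set.mem_univ _
    obtain ⟨t, ht⟩ := Set.mem_iUnion.1 h5
    rw [evol_empty h] at ht
    exact ht

lemma no_finite_blocked {p : unitInterval} (hp1 : p < 1) (hp : bern p (perc U) = 1)
    (F : Set (ℤ × ℤ)) (hF : F.Finite) (hb : Blocked U F) : F = ∅ := by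
  by_contra hne
  obtain ⟨x, hx⟩ := Set.nonempty_iff_ne_empty.2 hne
  have hE : bern p (Set.pi (hF.toFinset : Set (ℤ × ℤ)) (fun _ => {false})) =
      ∏ _i ∈ hF.toFinset, bernoulliMeasure true false p {false} := by
    unfold bern
    exact Measure.infinitePi_pi _ (fun _ _ => measurableSet_singleton _)
  have hpos : 0 < bern p (Set.pi (hF.toFinset : Set (ℤ × ℤ)) (fun _ => {false})) := by
    rw [hE, pos_iff_ne_zero, Finset.prod_ne_zero_iff]
    intro i _
    rw [bernoulliMeasure_apply p (measurableSet_singleton false)]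
    simp only [Set.mem_singleton_iff, reduceCtorEq, if_false, if_true]
    have h9 : (unitInterval.symm p) ≠ 0 := by
      intro h0
      rw [unitInterval.symm_eq_zero] at h0
      exact hp1.ne h0
    intro h10
    apply h9
    ext
    simpa using congrArg (fun t : NNReal => (t : ℝ)) (by exact_mod_cast h10 :
      unitInterval.toNNReal (unitInterval.symm p) = 0)
  have hdisj : perc U ⊆ (Set.pi (hF.toFinset : Set (ℤ × ℤ)) (fun _ => {false}))ᶜ := by
    intro ω hω hc
    have h1 : ∀ y ∈ F, y ∉ initial ω := by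
      intro y hy hy'
      have h2 := hc y (by simpa using hy)
      rw [Set.mem_singleton_iff] at h2
      have h3 : ω y = true := hy'
      rw [h2] at h3
      exact Bool.false_ne_true h3
    have h4 : x ∈ clos U (initial ω) := by
      have h5 : clos U (initial ω) = Set.univ := hω
      rw [h5]; exact Set.mem_univ _
    obtain ⟨t, ht⟩ := Set.mem_iUnion.1 h4
    exact blocked_evol hb h1 t x hx ht
  have hmeas : MeasurableSet (Set.pi (hF.toFinset : Set (ℤ × ℤ)) (fun _ => ({false} : Set Bool))) :=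
    MeasurableSet.pi (Finset.countable_toSet _) (fun _ _ => measurableSet_singleton _)
  have h7 := measure_mono (μ := bern p) hdisj
  rw [hp, prob_compl_eq_one_sub hmeas] at h7
  have h8 : (1 : ENNReal) - bern p (Set.pi (hF.toFinset : Set (ℤ × ℤ)) (fun _ => {false})) < 1 :=
    ENNReal.sub_lt_self ENNReal.one_ne_top one_ne_zero hpos.ne'
  exact absurd h7 (not_le.2 h8)

lemma exists_range (U : Finset (Finset (ℤ × ℤ))) : ∃ ρ : ℕ, 1 ≤ ρ ∧ Range U ρ := by
  refine ⟨U.sup (fun X => X.sup (fun y => y.1.natAbs + y.2.natAbs)) + 1, by omega, ?_⟩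
  intro X hX y hy
  have h1 : y.1.natAbs + y.2.natAbs ≤ X.sup (fun y => y.1.natAbs + y.2.natAbs) :=
    Finset.le_sup (f := fun y : ℤ × ℤ => y.1.natAbs + y.2.natAbs) hy
  have h2 : X.sup (fun y => y.1.natAbs + y.2.natAbs) ≤
      U.sup (fun X => X.sup (fun y => y.1.natAbs + y.2.natAbs)) :=
    Finset.le_sup (f := fun X : Finset (ℤ × ℤ) => X.sup (fun y => y.1.natAbs + y.2.natAbs)) hX
  omega

/-- Full answer to the second question. -/
theorem main (h : IsSubcritical U) (hp : bern (pc U) (perc U) = 1) :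
    ∫⁻ ω, occTime U ω ∂(bern (pc U)) < ⊤ ↔ pc U = 1 := by
  constructor
  · intro hlt
    by_contra hne
    have hlt1 : pc U < 1 := lt_of_le_of_ne le_top hne
    obtain ⟨ρ, hρ, hU⟩ := exists_range U
    have h1 := expected_top hρ hU (no_finite_blocked hlt1 hp) (pc_pos (empty_notMem h) hp)
    rw [h1] at hlt
    exact lt_irrefl _ hlt
  · intro h1
    rw [h1, expected_one]
    exact ENNReal.zero_lt_top

end Pool.Agent.N955.UB
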