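import Pool.Agent.N955.UB.Block

/-!
# The block argument: Peierls estimate
-/

set_option autoImplicit false

open MeasureTheory ProbabilityTheory

namespace Pool.Agent.N955.UB

variable {U : Finset (Finset (ℤ × ℤ))}

/-! ### Cardinality of a ring -/

lemma card_ring (L ρ : ℕ) (z : ℤ × ℤ) : (ring (L : ℤ) (ρ : ℤ) z).card ≤ 4 * ρ * (L + ρ) := by
  classical
  set a : ℤ := (L : ℤ) * z.1 with ha
  set b : ℤ := (L : ℤ) * z.2 with hb
  have h : ring (L : ℤ) (ρ : ℤ) z ⊆
      ((Finset.Ico a (a + ρ) ×ˢ Finset.Ico b (b + L + ρ)) ∪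
       (Finset.Ico a (a + L + ρ) ×ˢ Finset.Ico b (b + ρ))) ∪
      ((Finset.Ico (a + L) (a + L + ρ) ×ˢ Finset.Ico b (b + L + ρ)) ∪
       (Finset.Ico a (a + L + ρ) ×ˢ Finset.Ico (b + L) (b + L + ρ))) := by
    intro x hx
    rw [mem_ring] at hx
    simp only [Finset.mem_union, Finset.mem_product, Finset.mem_Ico]
    omega
  refine (Finset.card_le_card h).trans ?_
  refine (Finset.card_union_le _ _).trans ?_
  refine (add_le_add (Finset.card_union_le _ _) (Finset.card_union_le _ _)).trans ?_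
  simp only [Finset.card_product, Int.card_Ico]
  have e1 : (a + ρ - a).toNat = ρ := by omega
  have e2 : (b + L + ρ - b).toNat = L + ρ := by omega
  have e3 : (a + L + ρ - a).toNat = L + ρ := by omega
  have e4 : (b + ρ - b).toNat = ρ := by omega
  have e5 : (a + L + ρ - (a + L)).toNat = ρ := by omega
  have e6 : (b + L + ρ - (b + L)).toNat = ρ := by omega
  rw [e1, e2, e3, e4, e5, e6]
  nlinarith

/-- The probability that a block is bad. -/
lemma bern_badBlock (p : unitInterval) (n L ρ : ℕ) (z : ℤ × ℤ) :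
    bern p (badBlock U n ρ L z) ≤ (4 * ρ * (L + ρ) : ℕ) * bern p (bad U n 0) := by
  unfold badBlock
  refine (measure_biUnion_finset_le _ _).trans ?_
  rw [Finset.sum_congr rfl (fun x _ => bern_bad p (n : ℤ) x), Finset.sum_const, nsmul_eq_mul]
  exact mul_le_mul_left (Nat.cast_le.2 (card_ring L ρ z)) _

/-! ### Counting paths -/

/-- The offsets of king moves (and the zero offset). -/
noncomputable def offs : Finset (ℤ × ℤ) := Finset.Icc (-1 : ℤ) 1 ×ˢ Finset.Icc (-1 : ℤ) 1

lemma card_offs : offs.card = 9 := by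
  unfold offs
  rw [Finset.card_product, Int.card_Icc]
  rfl

open Classical in
/-- The lists of the successive positions of the walks with `m` steps from `z`. -/
noncomputable def paths : ℕ → ℤ × ℤ → Finset (List (ℤ × ℤ))
  | 0, z => {[z]}
  | m + 1, z => offs.biUnion (fun o => (paths m (z + o)).image (List.cons z))

lemma card_paths (m : ℕ) : ∀ z, (paths m z).card ≤ 9 ^ m := by
  classical
  induction m with
  | zero => intro z; simp [paths]
  | succ m ih =>
    intro z
    unfold paths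
    refine Finset.card_biUnion_le.trans ?_
    calc ∑ o ∈ offs, ((paths m (z + o)).image (List.cons z)).card
        ≤ ∑ _o ∈ offs, 9 ^ m := Finset.sum_le_sum (fun o _ => Finset.card_image_le.trans (ih _))
      _ = 9 ^ (m + 1) := by rw [Finset.sum_const, card_offs, smul_eq_mul, pow_succ, mul_comm]

lemma support_mem_paths {n ρ L : ℤ} {ω : ℤ × ℤ → Bool} {z w : ℤ × ℤ}
    (q : (badGraph U n ρ L ω).Walk z w) : q.support ∈ paths q.length z := by
  classical
  induction q with
  | nil => simp [paths]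
  | @cons a b c h q ih =>
    rw [SimpleGraph.Walk.support_cons, SimpleGraph.Walk.length_cons]
    unfold paths
    rw [Finset.mem_biUnion]
    refine ⟨b - a, ?_, ?_⟩
    · obtain ⟨-, h2, -⟩ := h
      unfold offs
      rw [Finset.mem_product, Finset.mem_Icc, Finset.mem_Icc]
      simp only [Prod.fst_sub, Prod.snd_sub]
      omega
    · rw [Finset.mem_image]
      exact ⟨q.support, by rw [add_sub_cancel]; exact ih, rfl⟩

lemma support_bad {n ρ L : ℤ} {ω : ℤ × ℤ → Bool} {z w : ℤ × ℤ}
    (q : (badGraph U n ρ L ω).Walk z w) (hz : ω ∈ badBlock U n ρ L z) :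
    ∀ v ∈ q.support, ω ∈ badBlock U n ρ L v := by
  induction q with
  | nil => intro v hv; rw [SimpleGraph.Walk.support_nil, List.mem_singleton] at hv; rwa [hv]
  | cons h q ih =>
    intro v hv
    rw [SimpleGraph.Walk.support_cons, List.mem_cons] at hv
    rcases hv with rfl | hv
    · exact hz
    · exact ih h.2.2.2 v hv

lemma walk_dist {n ρ L : ℤ} {ω : ℤ × ℤ → Bool} {z w : ℤ × ℤ}
    (q : (badGraph U n ρ L ω).Walk z w) :
    -(q.length : ℤ) ≤ w.1 - z.1 ∧ w.1 - z.1 ≤ q.length ∧ -(q.length : ℤ) ≤ w.2 - z.2 ∧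
      w.2 - z.2 ≤ q.length := by
  induction q with
  | nil => simp
  | cons h q ih =>
    have h2 := h.2.1
    rw [SimpleGraph.Walk.length_cons]
    push_cast
    omega

/-- If the cluster of `z` is infinite, there is a self-avoiding path of `m` steps. -/
lemma exists_path_of_infinite {n ρ L : ℤ} {ω : ℤ × ℤ → Bool} {z : ℤ × ℤ}
    (h : {w | (badGraph U n ρ L ω).Reachable z w}.Infinite) (m : ℕ) (hm : 1 ≤ m) :
    ∃ l ∈ paths m z, l.Nodup ∧ l.length = m + 1 ∧ ∀ v ∈ l, ω ∈ badBlock U n ρ L v := by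
  have h1 : ∃ w, (badGraph U n ρ L ω).Reachable z w ∧ m ≤ (badGraph U n ρ L ω).dist z w := by
    by_contra hc
    push Not at hc
    apply h
    refine Set.Finite.subset (Finset.finite_toSet (box z m)) ?_
    intro w hw
    rw [Finset.mem_coe, mem_box]
    obtain ⟨q, hq⟩ := SimpleGraph.Reachable.exists_walk_length_eq_dist hw
    have h3 := hc w hw
    have h4 := walk_dist q
    rw [hq] at h4
    omega
  obtain ⟨w, hw, hd⟩ := h1
  obtain ⟨q, hq, hql⟩ := hw.exists_path_of_dist
  have hlen : (q.take m).length = m := by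
    rw [SimpleGraph.Walk.take_length, hql]
    exact min_eq_left hd
  have hzbad : ω ∈ badBlock U n ρ L z := by
    cases q with
    | nil =>
      rw [SimpleGraph.Walk.length_nil] at hql
      omega
    | cons h q => exact h.2.2.1
  refine ⟨(q.take m).support, ?_, ?_, ?_, ?_⟩
  · have := support_mem_paths (q.take m)
    rwa [hlen] at this
  · exact (hq.take m).support_nodup
  · rw [SimpleGraph.Walk.length_support, hlen]
  · exact support_bad _ hzbad

/-- Two different points in the same class modulo 3 are far apart. -/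
lemma far_of_class {z w : ℤ × ℤ} (hne : z ≠ w) (h : (z.1 % 3, z.2 % 3) = (w.1 % 3, w.2 % 3)) :
    3 ≤ |z.1 - w.1| ∨ 3 ≤ |z.2 - w.2| := by
  rw [Prod.mk.injEq] at h
  by_contra hc
  push Not at hc
  obtain ⟨h1, h2⟩ := hc
  rw [abs_lt] at h1 h2
  apply hne
  apply Prod.ext
  · omega
  · omega

lemma card_class (s : Finset (ℤ × ℤ)) (k : ℕ) (hk : 9 * k ≤ s.card) :
    ∃ t ⊆ s, t.card = k ∧ ∀ z ∈ t, ∀ w ∈ t, z ≠ w → 3 ≤ |z.1 - w.1| ∨ 3 ≤ |z.2 - w.2| := by
  classical
  have h1 : ∀ z ∈ s, (z.1 % 3, z.2 % 3) ∈ Finset.Ico (0 : ℤ) 3 ×ˢ Finset.Ico (0 : ℤ) 3 := by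
    intro z _
    rw [Finset.mem_product, Finset.mem_Ico, Finset.mem_Ico]
    simp only
    omega
  have h2 : (Finset.Ico (0 : ℤ) 3 ×ˢ Finset.Ico (0 : ℤ) 3).card = 9 := by
    rw [Finset.card_product, Int.card_Ico]
    rfl
  obtain ⟨c, -, hc⟩ := Finset.exists_le_card_fiber_of_mul_le_card_of_maps_to (n := k) h1
    (Finset.card_pos.1 (by rw [h2]; norm_num)) (by rw [h2]; exact hk)
  obtain ⟨t, ht, htk⟩ := Finset.exists_subset_card_eq hc
  refine ⟨t, ht.trans (Finset.filter_subset _ _), htk, ?_⟩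
  intro z hz w hw hne
  refine far_of_class hne ?_
  rw [(Finset.mem_filter.1 (ht hz)).2, (Finset.mem_filter.1 (ht hw)).2]

/-- Peierls estimate: the cluster of a block is almost surely finite. -/
lemma cluster_finite (p : unitInterval) (n ρ : ℕ) (hL : 0 < n + ρ) (δ : ENNReal)
    (hδ : ∀ z, bern p (badBlock U n ρ ((n : ℤ) + ρ) z) ≤ δ) (hδ' : 9 ^ 9 * δ ≤ 1 / 2)
    (z : ℤ × ℤ) :
    bern p {ω | {w | (badGraph U n ρ ((n : ℤ) + ρ) ω).Reachable z w}.Infinite} = 0 := by
  classical
  have hbound : ∀ k : ℕ,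
      bern p {ω | {w | (badGraph U n ρ ((n : ℤ) + ρ) ω).Reachable z w}.Infinite} ≤
        (1 / 2 : ENNReal) ^ k := by
    intro k
    rcases Nat.eq_zero_or_pos k with rfl | hk
    · rw [pow_zero]; exact prob_le_one
    have hsub : {ω | {w | (badGraph U n ρ ((n : ℤ) + ρ) ω).Reachable z w}.Infinite} ⊆
        ⋃ l ∈ (paths (9 * k - 1) z).filter (fun l => l.Nodup ∧ l.length = 9 * k),
          ⋂ v ∈ l.toFinset, badBlock U n ρ ((n : ℤ) + ρ) v := by
      intro ω hω
      obtain ⟨l, hl, hnd, hlen, hb⟩ := exists_path_of_infinite hω (9 * k - 1) (by omega)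
      simp only [Set.mem_iUnion, Set.mem_iInter]
      refine ⟨l, Finset.mem_filter.2 ⟨hl, hnd, by omega⟩, fun v hv => hb v ?_⟩
      exact List.mem_toFinset.1 hv
    refine (measure_mono hsub).trans ((measure_biUnion_finset_le _ _).trans ?_)
    have hterm : ∀ l ∈ (paths (9 * k - 1) z).filter (fun l => l.Nodup ∧ l.length = 9 * k),
        bern p (⋂ v ∈ l.toFinset, badBlock U n ρ ((n : ℤ) + ρ) v) ≤ δ ^ k := by
      intro l hl
      obtain ⟨-, hnd, hlen⟩ := Finset.mem_filter.1 hl
      obtain ⟨t, ht, htk, hfar⟩ := card_class l.toFinset k (by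
        rw [List.toFinset_card_of_nodup hnd, hlen])
      have h1 : (⋂ v ∈ l.toFinset, badBlock U n ρ ((n : ℤ) + ρ) v) ⊆
          ⋂ v ∈ t, badBlock U n ρ ((n : ℤ) + ρ) v :=
        Set.biInter_subset_biInter_left ht
      refine (measure_mono h1).trans ?_
      rw [← htk]
      refine prod_bound p (fun v => dom ((n : ℤ) + ρ) v)
        (fun v => badBlock U n ρ ((n : ℤ) + ρ) v)
        (fun v => badBlock_dep (by positivity) (by positivity) v) δ hδ t ?_
      intro i hi j hj hij
      exact dom_disjoint (by exact_mod_cast hL) (hfar i hi j hj hij)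
    refine (Finset.sum_le_sum hterm).trans ?_
    rw [Finset.sum_const, nsmul_eq_mul]
    have hc : (((paths (9 * k - 1) z).filter
        (fun l => l.Nodup ∧ l.length = 9 * k)).card : ENNReal) ≤ (9 ^ 9) ^ k := by
      have h2 : ((paths (9 * k - 1) z).filter (fun l => l.Nodup ∧ l.length = 9 * k)).card ≤
          (9 ^ 9) ^ k := by
        refine (Finset.card_filter_le _ _).trans ((card_paths _ _).trans ?_)
        rw [← pow_mul]
        exact Nat.pow_le_pow_right (by norm_num) (by omega)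
      calc (((paths (9 * k - 1) z).filter
          (fun l => l.Nodup ∧ l.length = 9 * k)).card : ENNReal) ≤ (((9 ^ 9) ^ k : ℕ) : ENNReal) :=
            Nat.cast_le.2 h2
        _ = (9 ^ 9) ^ k := by norm_num
    calc _ ≤ (9 ^ 9) ^ k * δ ^ k := mul_le_mul_left hc _
      _ = (9 ^ 9 * δ) ^ k := (mul_pow _ _ _).symm
      _ ≤ (1 / 2) ^ k := pow_le_pow_left' hδ' k
  have ht := ENNReal.tendsto_pow_atTop_nhds_zero_of_lt_one
    (r := (1 / 2 : ENNReal)) (by rw [one_div]; exact ENNReal.one_half_lt_one)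
  exact le_antisymm (ge_of_tendsto' ht hbound) bot_le

end Pool.Agent.N955.UB
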